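import Mathlib
import Pool.Agent.H20.Cluster

set_option autoImplicit false

namespace Pool.Agent.Results.MP_de06d2_co.Pathwidth

open Finset Classical

/-- `G` has a path decomposition with bags of size at most `k + 1`. -/
def PathwidthLE {V : Type} (G : SimpleGraph V) (k : ℕ) : Prop :=
  ∃ (n : ℕ) (B : Fin n → Finset V), (∀ i, (B i).card ≤ k + 1) ∧ (∀ v : V, ∃ i, v ∈ B i) ∧
    (∀ u v : V, G.Adj u v → ∃ i, u ∈ B i ∧ v ∈ B i) ∧
    ∀ (v : V) (i j l : Fin n), i ≤ j → j ≤ l → v ∈ B i → v ∈ B l → v ∈ B j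

theorem hasSep {V : Type} (G : SimpleGraph V) (k : ℕ) (h : PathwidthLE G k) :
    H20.TreeSep.HasSep G (k + 1) := by
  obtain ⟨n, B, hw, cov, edge, run⟩ := h
  intro Y t ht hY
  let y : ℕ → Finset V := fun m => Y.filter (fun v => ∃ j : Fin n, j.val < m ∧ v ∈ B j)
  have hex : ∃ m, t + (k + 1) ≤ (y m).card := by
    refine ⟨n, ?_⟩
    have : y n = Y := filter_true_of_mem fun v _ => by
      obtain ⟨j, hj⟩ := cov v
      exact ⟨j, j.2, hj⟩
    rw [this]; omega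
  have h1 := Nat.find_spec hex
  have h0 : Nat.find hex ≠ 0 := by
    intro e
    rw [e] at h1
    have : y 0 = ∅ := filter_false_of_mem (by simp)
    rw [this] at h1
    simp at h1
  obtain ⟨m, hm⟩ := Nat.exists_eq_succ_of_ne_zero h0
  have h2 : ¬ t + (k + 1) ≤ (y m).card := Nat.find_min hex (by omega)
  rw [hm] at h1
  have hmn : m < n := by
    by_contra hc
    have : y (m + 1) = y m := by
      apply filter_congr
      intro v _
      constructor <;> rintro ⟨j, _, hj⟩ <;> exact ⟨j, by have := j.2; omega, hj⟩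
    simp only [Nat.succ_eq_add_one] at h1
    rw [this] at h1
    exact h2 h1
  let i : Fin n := ⟨m, hmn⟩
  have key : ∀ v, (∃ j : Fin n, j ≤ i ∧ v ∈ B j) → (∃ j : Fin n, i ≤ j ∧ v ∈ B j) → v ∈ B i := by
    rintro v ⟨a, ha, hva⟩ ⟨b, hb, hvb⟩
    exact run v a i b ha hb hva hvb
  have h3 : (y (m + 1)).card ≤ (y m).card + (B i).card := by
    refine le_trans (card_le_card ?_) (card_union_le _ _)
    intro v hv
    obtain ⟨a, j, hj, hv⟩ := mem_filter.1 hv
    by_cases e : j.val < m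
    · exact mem_union_left _ (mem_filter.2 ⟨a, j, e, hv⟩)
    · have : j = i := Fin.ext (by simp only [i]; omega)
      exact mem_union_right _ (this ▸ hv)
  have h4 := hw i
  refine ⟨{v | ∃ j : Fin n, j ≤ i ∧ v ∈ B j}, {v | ∃ j : Fin n, i ≤ j ∧ v ∈ B j}, B i, hw i,
    ?_, ?_, ?_, ?_, ?_⟩
  · intro v
    obtain ⟨j, hj⟩ := cov v
    rcases le_total j i with h | h
    · exact Or.inl ⟨j, h, hj⟩
    · exact Or.inr ⟨j, h, hj⟩
  · exact fun v => ⟨fun h => ⟨⟨i, le_rfl, h⟩, ⟨i, le_rfl, h⟩⟩, fun h => key v h.1 h.2⟩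
  · intro u v huv
    obtain ⟨j, a, b⟩ := edge u v huv
    rcases le_total j i with h | h
    · exact Or.inl ⟨⟨j, h, a⟩, ⟨j, h, b⟩⟩
    · exact Or.inr ⟨⟨j, h, a⟩, ⟨j, h, b⟩⟩
  · refine ⟨Y \ y (m + 1), sdiff_subset, ?_, ?_⟩
    · have := le_card_sdiff (y (m + 1)) Y
      omega
    · rintro v hv ⟨j, hj, h⟩
      obtain ⟨a, b⟩ := mem_sdiff.1 hv
      exact b (mem_filter.2 ⟨a, j, Nat.lt_succ_of_le hj, h⟩)
  · refine ⟨y (m + 1) \ B i, sdiff_subset.trans (filter_subset _ _), ?_, ?_⟩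
    · have := le_card_sdiff (B i) (y (m + 1))
      simp only [Nat.succ_eq_add_one] at h1
      omega
    · intro v hv h
      obtain ⟨a, b⟩ := mem_sdiff.1 hv
      obtain ⟨_, j, hj, hv⟩ := mem_filter.1 a
      exact b (key v ⟨j, Nat.le_of_lt_succ hj, hv⟩ h)

theorem result (k : ℕ) : ∃ c : ℕ, ∀ (V : Type) [Fintype V] (G : SimpleGraph V),
    (7 : ℕ∞) ≤ G.egirth → PathwidthLE G k →
    ∃ f : V → Fin 2, ∀ s : Finset V, (∀ x ∈ s, ∀ y ∈ s, f x = f y) →
      (G.induce (s : Set V)).Connected → s.card ≤ c := by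
  obtain ⟨c, hc⟩ := H20.Cluster.clustered (k + 1)
  exact ⟨c, fun V _ G hg hp => hc V G hg (hasSep G k hp)⟩

end Pool.Agent.Results.MP_de06d2_co.Pathwidth
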